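import Pool.Agent.helper37.P2.SpecD

set_option autoImplicit false

open scoped ContDiff Topology
open MeasureTheory Filter Set Metric MvPolynomial Pool.Agent.helper37.QA

namespace Pool.Agent.P2

theorem RD2_ne (A : E3 ≃L[ℂ] E3) {v : E3} (h : v ≠ 0) : A v ≠ 0 := fun h' =>
  h (A.injective (by rw [h', map_zero]))

/-- the map of the projective plane given by an invertible linear map -/
noncomputable def RD2_map (A : E3 ≃L[ℂ] E3) (x : PP 2) : PP 2 :=
  toPP ⟨A x.rep, RD2_ne A x.rep_nonzero⟩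

theorem RD2_map_toPP (A : E3 ≃L[ℂ] E3) {v : E3} (h : v ≠ 0) :
    RD2_map A (toPP ⟨v, h⟩) = toPP ⟨A v, RD2_ne A h⟩ := by
  obtain ⟨a, ha⟩ := Projectivization.exists_smul_eq_mk_rep ℂ v h
  unfold RD2_map
  apply toPP_eq _ _ (a : ℂ)
  have h1 : (toPP ⟨v, h⟩ : PP 2).rep = (a : ℂ) • v := ha.symm
  rw [h1, map_smul]

theorem RD2_ind {C : PP 2 → Prop} (h : ∀ (v : E3) (hv : v ≠ 0), C (toPP ⟨v, hv⟩)) (x : PP 2) :
    C x := by
  have h1 : toPP ⟨x.rep, x.rep_nonzero⟩ = x := Projectivization.mk_rep x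
  rw [← h1]
  exact h _ _

theorem RD2_cont (A : E3 ≃L[ℂ] E3) : Continuous (RD2_map A) := by
  apply continuous_coinduced_dom.2
  have h1 : RD2_map A ∘ toPP = toPP ∘ fun v : {v : E3 // v ≠ 0} =>
      (⟨A v.1, RD2_ne A v.2⟩ : {v : E3 // v ≠ 0}) := by
    funext v
    exact RD2_map_toPP A v.2
  rw [h1]
  apply toPP_cont.comp
  apply Continuous.subtype_mk
  exact A.continuous.comp continuous_subtype_val

theorem RD2_inv (A B : E3 ≃L[ℂ] E3) (h : ∀ v, B (A v) = v) (x : PP 2) :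
    RD2_map B (RD2_map A x) = x := by
  revert x
  apply RD2_ind
  intro v hv
  rw [RD2_map_toPP, RD2_map_toPP]
  apply toPP_eq _ _ (1 : ℂ)
  rw [one_smul, h]

noncomputable def RD2_homeo (A : E3 ≃L[ℂ] E3) : PP 2 ≃ₜ PP 2 where
  toFun := RD2_map A
  invFun := RD2_map A.symm
  left_inv := RD2_inv A A.symm A.symm_apply_apply
  right_inv := RD2_inv A.symm A A.apply_symm_apply
  continuous_toFun := RD2_cont A
  continuous_invFun := RD2_cont A.symm

/-- the linear forms of an invertible linear map -/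
noncomputable def RD2_lin (A : E3 ≃L[ℂ] E3) (l : Fin 3) : MvPolynomial (Fin 3) ℂ :=
  ∑ m : Fin 3, C (A (Pi.single m 1) l) * X m

theorem RD2_sum (A : E3 ≃L[ℂ] E3) (x : E3) (l : Fin 3) :
    ∑ m : Fin 3, A (Pi.single m 1) l * x m = A x l := by
  have h1 : x = ∑ m : Fin 3, x m • (Pi.single m (1 : ℂ) : E3) := by
    funext j
    rw [Finset.sum_apply]
    simp [Pi.single_apply]
  conv_rhs => rw [h1]
  rw [map_sum, Finset.sum_apply]
  apply Finset.sum_congr rfl
  intro m _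
  rw [map_smul, Pi.smul_apply, smul_eq_mul, mul_comm]

theorem RD2_lin_eval (A : E3 ≃L[ℂ] E3) (x : E3) (l : Fin 3) : eval x (RD2_lin A l) = A x l := by
  rw [← RD2_sum]
  unfold RD2_lin
  rw [map_sum]
  apply Finset.sum_congr rfl
  intro m _
  rw [map_mul, eval_C, eval_X]

theorem RD2_lin_hom (A : E3 ≃L[ℂ] E3) (l : Fin 3) : (RD2_lin A l).IsHomogeneous 1 := by
  unfold RD2_lin
  apply IsHomogeneous.sum
  intro m _
  exact isHomogeneous_C_mul_X _ _

/-- the conjugated polynomials -/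
noncomputable def RD2_F {d : ℕ} (f : Endo 2 d) (A : E3 ≃L[ℂ] E3) (i : Fin 3) :
    MvPolynomial (Fin 3) ℂ :=
  ∑ j : Fin 3, C (A (Pi.single j 1) i) * bind₁ (RD2_lin A.symm) (f.F j)

theorem RD2_F_eval {d : ℕ} (f : Endo 2 d) (A : E3 ≃L[ℂ] E3) (x : E3) (i : Fin 3) :
    eval x (RD2_F f A i) = A (pmap f.F (A.symm x)) i := by
  rw [← RD2_sum]
  unfold RD2_F
  rw [map_sum]
  apply Finset.sum_congr rfl
  intro j _
  rw [map_mul, eval_C]
  have h1 : eval x (bind₁ (RD2_lin A.symm) (f.F j)) =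
      eval (fun l => eval x (RD2_lin A.symm l)) (f.F j) :=
    eval₂Hom_bind₁ (RingHom.id ℂ) x (RD2_lin A.symm) (f.F j)
  have h2 : (fun l => eval x (RD2_lin A.symm l)) = A.symm x := by
    funext l
    exact RD2_lin_eval A.symm x l
  rw [h1, h2]
  rfl

noncomputable def RD2_endo {d : ℕ} (f : Endo 2 d) (A : E3 ≃L[ℂ] E3) : Endo 2 d where
  F := RD2_F f A
  hom := by
    intro i
    unfold RD2_F
    apply IsHomogeneous.sum
    intro j _
    apply IsHomogeneous.C_mul
    have h := (f.hom j).aeval (RD2_lin A.symm) (fun l => RD2_lin_hom A.symm l)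
    rw [one_mul] at h
    exact h
  nondeg := by
    intro x hx
    have h1 : A (pmap f.F (A.symm x)) = 0 := by
      funext i
      rw [← RD2_F_eval]
      exact hx i
    have h2 : pmap f.F (A.symm x) = 0 := A.injective (by rw [h1, map_zero])
    have h3 : A.symm x = 0 := f.nondeg _ fun i => congrFun h2 i
    exact A.symm.injective (by rw [h3, map_zero])

theorem RD2 : RD2_stmt := by
  intro d f p
  have hs : (Pi.single (2 : Fin 3) (1 : ℂ) : E3) ≠ 0 := by
    intro h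
    have := congrFun h 2
    simp at this
  obtain ⟨A, hA⟩ := SeparatingDual.exists_continuousLinearEquiv_apply_eq (R := ℂ)
    (x := p.rep) (y := (Pi.single (2 : Fin 3) (1 : ℂ) : E3)) p.rep_nonzero hs
  refine ⟨RD2_endo f A, RD2_homeo A, ?_, ?_⟩
  · apply RD2_ind
    intro v hv
    show (RD2_endo f A).map (RD2_map A (toPP ⟨v, hv⟩)) = RD2_map A (f.map (toPP ⟨v, hv⟩))
    rw [RD2_map_toPP, map_toPP f hv, RD2_map_toPP, map_toPP]
    apply toPP_eq _ _ (1 : ℂ)
    rw [one_smul]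
    funext i
    show A (pmap f.F v) i = eval (A v) (RD2_F f A i)
    rw [RD2_F_eval, A.symm_apply_apply]
  · intro Z h h0 h1
    show toPP ⟨A p.rep, _⟩ = toPP ⟨Z, h⟩
    symm
    apply toPP_eq _ _ (Z 2)
    rw [hA]
    funext j
    fin_cases j
    · simp [h0]
    · simp [h1]
    · simp

end Pool.Agent.P2
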