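import Pool.Agent.helper83.P2.SpecV

set_option autoImplicit false

open scoped ContDiff Topology
open MeasureTheory Filter Set Metric MvPolynomial Pool.Agent.helper37.QA Pool.Agent.P2

namespace Pool.Agent.P2V

open Pool.Agent.P2

theorem VN1_lap_smoothAt {v : ℂ → ℝ} {z : ℂ} (h : ContDiffAt ℝ ∞ v z) : ContDiffAt ℝ ∞ (lap v) z := by
  have h1 : ContDiffAt ℝ ∞ (iteratedFDeriv ℝ 2 v) z := by
    refine h.iteratedFDeriv_right (i := 2) ?_
    exact le_of_eq (by rfl)
  have h2 : ∀ m : Fin 2 → ℂ, ContDiffAt ℝ ∞ (fun z => iteratedFDeriv ℝ 2 v z m) z := by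
    intro m
    exact (ContinuousMultilinearMap.apply ℝ (fun _ : Fin 2 => ℂ) ℝ m).contDiff.contDiffAt.comp z h1
  unfold lap
  exact contDiffAt_const.mul ((h2 _).add (h2 _))

/-- the logarithm is dominated by a sum of indicator functions -/
theorem VN1_log (r : ℝ) (hr : 0 ≤ r) (hr2 : r ≤ 8) :
    ENNReal.ofReal |Real.log r| ≤ ENNReal.ofReal (Real.log 16) +
      ∑' k : ℕ, ENNReal.ofReal (Real.log 2) * (if r < (1 / 2) ^ k / 8 then 1 else 0) := by
  have hl8 : 0 < Real.log 8 := Real.log_pos (by norm_num)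
  have hl2 : 0 < Real.log 2 := Real.log_pos (by norm_num)
  have hl16 : Real.log 16 = Real.log 8 + Real.log 2 := by
    rw [← Real.log_mul (by norm_num) (by norm_num)]
    norm_num
  rcases hr.eq_or_lt with h0 | h0
  · rw [← h0]
    simp
  by_cases h8 : 1 / 8 ≤ r
  · refine le_trans (ENNReal.ofReal_le_ofReal ?_) le_self_add
    rw [abs_le]
    constructor
    · have : Real.log (1 / 8) ≤ Real.log r := Real.log_le_log (by norm_num) h8
      rw [one_div, Real.log_inv] at this
      linarith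
    · have := Real.log_le_log h0 hr2
      linarith
  · push Not at h8
    obtain ⟨m, hm1, hm2⟩ : ∃ m : ℕ, (1 / 2 : ℝ) ^ (m + 1) < 8 * r ∧ 8 * r ≤ (1 / 2) ^ m :=
      exists_nat_pow_near_of_lt_one (by linarith) (by linarith) (by norm_num) (by norm_num)
    have hsum : ((m : ENNReal)) * ENNReal.ofReal (Real.log 2) ≤
        ∑' k : ℕ, ENNReal.ofReal (Real.log 2) * (if r < (1 / 2) ^ k / 8 then 1 else 0) := by
      refine le_trans ?_ (ENNReal.sum_le_tsum (Finset.range m))
      have : ∀ k ∈ Finset.range m, ENNReal.ofReal (Real.log 2) * (if r < (1 / 2) ^ k / 8 then (1 : ENNReal) else 0) =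
          ENNReal.ofReal (Real.log 2) := by
        intro k hk
        have hk' := Finset.mem_range.1 hk
        have h1 : (1 / 2 : ℝ) ^ m < (1 / 2) ^ k :=
          pow_lt_pow_right_of_lt_one₀ (by norm_num) (by norm_num) hk'
        rw [if_pos (by linarith), mul_one]
      rw [Finset.sum_congr rfl this, Finset.sum_const, Finset.card_range, nsmul_eq_mul]
    have hlog : |Real.log r| ≤ Real.log 16 + m * Real.log 2 := by
      have h1 : Real.log ((1 / 2) ^ (m + 1)) ≤ Real.log (8 * r) := Real.log_le_log (by positivity) hm1.le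
      rw [Real.log_pow, Real.log_mul (by norm_num) h0.ne', one_div, Real.log_inv] at h1
      push_cast at h1
      have h2 : Real.log r ≤ 0 := Real.log_nonpos h0.le (by linarith)
      rw [abs_of_nonpos h2]
      linarith
    calc ENNReal.ofReal |Real.log r| ≤ ENNReal.ofReal (Real.log 16 + m * Real.log 2) := ENNReal.ofReal_le_ofReal hlog
      _ = ENNReal.ofReal (Real.log 16) + (m : ENNReal) * ENNReal.ofReal (Real.log 2) := by
          rw [ENNReal.ofReal_add (by linarith) (by positivity), ENNReal.ofReal_mul (by positivity), ENNReal.ofReal_natCast]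
      _ ≤ _ := by gcongr

/-- a finite covering of the ball of radius `9/8` by balls of radius `1/8` -/
theorem VN1_cover : ∃ T : Finset ℂ, (∀ ζ ∈ T, ζ ∈ ball (0 : ℂ) (9 / 8)) ∧ closedBall (0 : ℂ) (9 / 8) ⊆ ⋃ ζ ∈ T, ball ζ (1 / 8) := by
  obtain ⟨b, hb, hfin, hcov⟩ := (isCompact_closedBall (0 : ℂ) (9 / 8)).elim_finite_subcover_image
    (b := ball (0 : ℂ) (9 / 8)) (c := fun ζ => ball ζ (1 / 8)) (fun _ _ => isOpen_ball) (by
      intro x hx
      rw [mem_closedBall_zero_iff] at hx
      simp only [mem_iUnion]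
      refine ⟨((17 / 18 : ℝ) : ℂ) * x, ?_, ?_⟩
      · rw [mem_ball_zero_iff, norm_mul, Complex.norm_real]
        rw [Real.norm_of_nonneg (by norm_num)]
        linarith
      · rw [mem_ball, dist_eq_norm]
        have e : x - ((17 / 18 : ℝ) : ℂ) * x = ((1 / 18 : ℝ) : ℂ) * x := by
          push_cast
          ring
        rw [e, norm_mul, Complex.norm_real, Real.norm_of_nonneg (by norm_num)]
        linarith)
  refine ⟨hfin.toFinset, fun ζ hζ => hb (hfin.mem_toFinset.1 hζ), ?_⟩
  intro x hx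
  have := hcov hx
  simp only [mem_iUnion] at this ⊢
  obtain ⟨ζ, h1, h2⟩ := this
  exact ⟨ζ, hfin.mem_toFinset.2 h1, h2⟩

theorem VN1_pot (T : Finset ℂ) (hT : ∀ ζ ∈ T, ζ ∈ ball (0 : ℂ) (9 / 8)) (hcov : closedBall (0 : ℂ) (9 / 8) ⊆ ⋃ ζ ∈ T, ball ζ (1 / 8))
    (β : ℝ) (hβ : 0 < β) (A : ℝ) (hA : 0 ≤ A) (ρ : ℂ → ℝ) (hρc : Continuous ρ) (hρ0 : ∀ z, 0 ≤ ρ z) (hρs : ∀ z, z ∉ ball (0 : ℂ) (9 / 8) → ρ z = 0)
    (hb : ∀ ζ ∈ ball (0 : ℂ) (9 / 8), ∀ t : ℝ, 0 < t → t ≤ 1 / 8 → ∫⁻ z in ball ζ t, ENNReal.ofReal (ρ z) ≤ ENNReal.ofReal (A * t ^ β))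
    (z : ℂ) (hz : z ∈ ball (0 : ℂ) 1) :
    |∫ w, Real.log ‖w‖ * ρ (z - w)| ≤ (Real.log 16 * T.card + Real.log 2 * ∑' k : ℕ, ((1 / 2 : ℝ) ^ k / 8) ^ β) * A := by
  have hl16 : 0 < Real.log 16 := Real.log_pos (by norm_num)
  have hl2 : 0 < Real.log 2 := Real.log_pos (by norm_num)
  have hsummable : Summable fun k : ℕ => ((1 / 2 : ℝ) ^ k / 8) ^ β := by
    have e : (fun k : ℕ => ((1 / 2 : ℝ) ^ k / 8) ^ β) = fun k => (1 / 8 : ℝ) ^ β * ((1 / 2 : ℝ) ^ β) ^ k := by
      funext k
      rw [div_eq_mul_one_div, mul_comm, Real.mul_rpow (by norm_num) (by positivity), ← Real.rpow_natCast, ← Real.rpow_natCast,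
        ← Real.rpow_mul (by norm_num), ← Real.rpow_mul (by norm_num), mul_comm (k : ℝ) β]
    rw [e]
    refine Summable.mul_left _ (summable_geometric_of_lt_one (by positivity) ?_)
    exact Real.rpow_lt_one (by norm_num) (by norm_num) hβ
  have hS0 : 0 ≤ ∑' k : ℕ, ((1 / 2 : ℝ) ^ k / 8) ^ β := tsum_nonneg fun k => by positivity
  have hchg : ∫ w, Real.log ‖w‖ * ρ (z - w) = ∫ w, Real.log ‖z - w‖ * ρ w := by
    have := integral_sub_left_eq_self (fun w => Real.log ‖z - w‖ * ρ w) volume z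
    rw [← this]
    refine integral_congr_ae (Filter.Eventually.of_forall fun w => ?_)
    simp
  have hmeas : Measurable fun w => ENNReal.ofReal (ρ w) := hρc.measurable.ennreal_ofReal
  -- total mass
  have htot : ∫⁻ w, ENNReal.ofReal (ρ w) ≤ (T.card : ENNReal) * ENNReal.ofReal A := by
    calc ∫⁻ w, ENNReal.ofReal (ρ w) ≤ ∫⁻ w, ∑ ζ ∈ T, (ball ζ (1 / 8)).indicator (fun w => ENNReal.ofReal (ρ w)) w := by
          refine lintegral_mono fun w => ?_
          by_cases hw : w ∈ closedBall (0 : ℂ) (9 / 8)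
          · have := hcov hw
            simp only [mem_iUnion] at this
            obtain ⟨ζ, h1, h2⟩ := this
            refine le_trans ?_ (Finset.single_le_sum (f := fun ζ => (ball ζ (1 / 8)).indicator (fun w => ENNReal.ofReal (ρ w)) w)
              (fun _ _ => zero_le) h1)
            rw [indicator_of_mem h2]
          · rw [hρs w fun h => hw (ball_subset_closedBall h)]
            simp
      _ = ∑ ζ ∈ T, ∫⁻ w, (ball ζ (1 / 8)).indicator (fun w => ENNReal.ofReal (ρ w)) w :=
          lintegral_finsetSum _ fun ζ _ => hmeas.indicator measurableSet_ball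
      _ ≤ ∑ ζ ∈ T, ENNReal.ofReal A := by
          refine Finset.sum_le_sum fun ζ hζ => ?_
          rw [lintegral_indicator measurableSet_ball]
          refine le_trans (hb ζ (hT ζ hζ) (1 / 8) (by norm_num) le_rfl) (ENNReal.ofReal_le_ofReal ?_)
          exact mul_le_of_le_one_right hA (Real.rpow_le_one (by norm_num) (by norm_num) hβ.le)
      _ = _ := by rw [Finset.sum_const, nsmul_eq_mul]
  have hz9 : z ∈ ball (0 : ℂ) (9 / 8) := ball_subset_ball (by norm_num) hz
  -- the potential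
  have hmain : ∫⁻ w, ENNReal.ofReal ‖Real.log ‖z - w‖ * ρ w‖ ≤
      ENNReal.ofReal ((Real.log 16 * T.card + Real.log 2 * ∑' k : ℕ, ((1 / 2 : ℝ) ^ k / 8) ^ β) * A) := by
    calc ∫⁻ w, ENNReal.ofReal ‖Real.log ‖z - w‖ * ρ w‖ ≤
          ∫⁻ w, (ENNReal.ofReal (Real.log 16) * ENNReal.ofReal (ρ w) +
            ∑' k : ℕ, ENNReal.ofReal (Real.log 2) * (ball z ((1 / 2) ^ k / 8)).indicator (fun w => ENNReal.ofReal (ρ w)) w) := by
          refine lintegral_mono fun w => ?_
          by_cases hw : w ∈ ball (0 : ℂ) (9 / 8)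
          · have hr : ‖z - w‖ ≤ 8 := by
              rw [mem_ball_zero_iff] at hw hz
              have := norm_sub_le z w
              linarith
            have h1 := VN1_log ‖z - w‖ (norm_nonneg _) hr
            rw [norm_mul, Real.norm_eq_abs, Real.norm_of_nonneg (hρ0 w), ENNReal.ofReal_mul (abs_nonneg _)]
            refine le_trans (mul_le_mul_left h1 _) ?_
            rw [add_mul, ← ENNReal.tsum_mul_right]
            refine add_le_add le_rfl (ENNReal.tsum_le_tsum fun k => ?_)
            rw [mul_assoc]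
            refine mul_le_mul_right ?_ _
            by_cases h2 : ‖z - w‖ < (1 / 2) ^ k / 8
            · rw [if_pos h2, one_mul, indicator_of_mem]
              rw [mem_ball, dist_comm, dist_eq_norm]
              exact h2
            · rw [if_neg h2, zero_mul]
              exact zero_le
          · rw [hρs w hw]
            simp
      _ = ENNReal.ofReal (Real.log 16) * (∫⁻ w, ENNReal.ofReal (ρ w)) +
            ∑' k : ℕ, ENNReal.ofReal (Real.log 2) * ∫⁻ w in ball z ((1 / 2) ^ k / 8), ENNReal.ofReal (ρ w) := by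
          rw [lintegral_add_left (hmeas.const_mul _), lintegral_const_mul _ hmeas, lintegral_tsum]
          · congr 1
            refine tsum_congr fun k => ?_
            rw [lintegral_const_mul _ (hmeas.indicator measurableSet_ball), lintegral_indicator measurableSet_ball]
          · intro k
            exact ((hmeas.indicator measurableSet_ball).const_mul _).aemeasurable
      _ ≤ ENNReal.ofReal (Real.log 16) * ((T.card : ENNReal) * ENNReal.ofReal A) +
            ∑' k : ℕ, ENNReal.ofReal (Real.log 2) * ENNReal.ofReal (A * ((1 / 2 : ℝ) ^ k / 8) ^ β) := by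
          refine add_le_add (mul_le_mul_right htot _) (ENNReal.tsum_le_tsum fun k => mul_le_mul_right ?_ _)
          refine hb z hz9 _ (by positivity) ?_
          have : (1 / 2 : ℝ) ^ k ≤ 1 := pow_le_one₀ (by norm_num) (by norm_num)
          linarith
      _ = _ := by
          have e1 : ∀ k : ℕ, ENNReal.ofReal (Real.log 2) * ENNReal.ofReal (A * ((1 / 2 : ℝ) ^ k / 8) ^ β) =
              ENNReal.ofReal (Real.log 2 * (A * ((1 / 2 : ℝ) ^ k / 8) ^ β)) := fun k =>
            (ENNReal.ofReal_mul hl2.le).symm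
          rw [tsum_congr e1, ← ENNReal.ofReal_tsum_of_nonneg (fun k => by positivity) ((hsummable.mul_left A).mul_left _),
            tsum_mul_left, tsum_mul_left, ← ENNReal.ofReal_natCast, ← ENNReal.ofReal_mul (by positivity),
            ← ENNReal.ofReal_mul hl16.le, ← ENNReal.ofReal_add (by positivity) (by positivity)]
          congr 1
          ring
  rw [hchg]
  have h1 := norm_integral_le_lintegral_norm (μ := (volume : Measure ℂ)) (fun w => Real.log ‖z - w‖ * ρ w)
  rw [Real.norm_eq_abs] at h1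
  refine le_trans h1 ?_
  exact ENNReal.toReal_le_of_le_ofReal (by positivity) hmain

theorem VN1 (hVN0 : VN0_stmt) : VN1_stmt := by
  intro β hβ
  obtain ⟨T, hT, hcov⟩ := VN1_cover
  have hl16 : 0 < Real.log 16 := Real.log_pos (by norm_num)
  have hl2 : 0 < Real.log 2 := Real.log_pos (by norm_num)
  have hS0 : 0 ≤ ∑' k : ℕ, ((1 / 2 : ℝ) ^ k / 8) ^ β := tsum_nonneg fun k => by positivity
  refine ⟨(2 / Real.pi) * (Real.log 16 * T.card + Real.log 2 * ∑' k : ℕ, ((1 / 2 : ℝ) ^ k / 8) ^ β) + 1, by positivity, ?_⟩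
  intro A v hA hv hlap hmass
  let χ : ContDiffBump (0 : ℂ) := ⟨17 / 16, 9 / 8, by norm_num, by norm_num⟩
  obtain ⟨ρ, hρ⟩ : ∃ ρ : ℂ → ℝ, ∀ z, ρ z = χ z * lap v z := ⟨fun z => χ z * lap v z, fun z => rfl⟩
  have hρe : ρ = fun z => χ z * lap v z := funext hρ
  have hvat : ∀ z ∈ ball (0 : ℂ) (5 / 4), ContDiffAt ℝ ∞ v z := fun z hz => hv.contDiffAt (isOpen_ball.mem_nhds hz)
  have hρ0 : ∀ z, 0 ≤ ρ z := by
    intro z
    rw [hρ]
    by_cases hz : z ∈ ball (0 : ℂ) (5 / 4)
    · exact mul_nonneg χ.nonneg (hlap z hz)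
    · rw [χ.zero_of_le_dist, zero_mul]
      rw [mem_ball, not_lt] at hz
      exact le_trans (by norm_num) hz
  have hρs : ∀ z, z ∉ ball (0 : ℂ) (9 / 8) → ρ z = 0 := by
    intro z hz
    rw [hρ, χ.zero_of_le_dist, zero_mul]
    rw [mem_ball, not_lt] at hz
    exact hz
  have hρsm : ContDiff ℝ ∞ ρ := by
    rw [contDiff_iff_contDiffAt]
    intro z
    by_cases hz : z ∈ ball (0 : ℂ) (5 / 4)
    · rw [hρe]
      exact χ.contDiff.contDiffAt.mul (VN1_lap_smoothAt (hvat z hz))
    · have hz' : z ∈ (closedBall (0 : ℂ) (9 / 8))ᶜ := by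
        intro h
        apply hz
        rw [mem_closedBall] at h
        rw [mem_ball]
        linarith
      have hev : ρ =ᶠ[𝓝 z] fun _ => 0 := by
        filter_upwards [isClosed_closedBall.isOpen_compl.mem_nhds hz'] with w hw
        exact hρs w fun h => hw (ball_subset_closedBall h)
      exact contDiffAt_const.congr_of_eventuallyEq hev
  have hρcs : HasCompactSupport ρ := by
    refine HasCompactSupport.of_support_subset_isCompact (isCompact_closedBall (0 : ℂ) (9 / 8)) ?_
    intro z hz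
    by_contra h
    exact hz (hρs z fun h' => h (ball_subset_closedBall h'))
  have hb : ∀ ζ ∈ ball (0 : ℂ) (9 / 8), ∀ t : ℝ, 0 < t → t ≤ 1 / 8 →
      ∫⁻ z in ball ζ t, ENNReal.ofReal (ρ z) ≤ ENNReal.ofReal (A * t ^ β) := by
    intro ζ hζ t ht0 ht
    have hsub : closedBall ζ t ⊆ ball (0 : ℂ) (5 / 4) := by
      intro w hw
      rw [mem_closedBall] at hw
      rw [mem_ball] at hζ ⊢
      have := dist_triangle w ζ 0
      linarith
    have hint : IntegrableOn (lap v) (ball ζ t) := by
      have : ContinuousOn (lap v) (closedBall ζ t) := fun w hw =>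
        (VN1_lap_smoothAt (hvat w (hsub hw))).continuousAt.continuousWithinAt
      exact (this.integrableOn_compact (isCompact_closedBall ζ t)).mono_set ball_subset_closedBall
    have hle : ∫⁻ z in ball ζ t, ENNReal.ofReal (ρ z) ≤ ∫⁻ z in ball ζ t, ENNReal.ofReal (lap v z) := by
      refine setLIntegral_mono' measurableSet_ball fun w hw => ENNReal.ofReal_le_ofReal ?_
      rw [hρ]
      exact mul_le_of_le_one_left (hlap w (hsub (ball_subset_closedBall hw))) χ.le_one
    refine hle.trans ?_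
    rw [← ofReal_integral_eq_lintegral_ofReal hint]
    · exact ENNReal.ofReal_le_ofReal (hmass ζ hζ t ht0 ht)
    · rw [Filter.EventuallyLE, ae_restrict_iff' measurableSet_ball]
      exact Filter.Eventually.of_forall fun w hw => hlap w (hsub (ball_subset_closedBall hw))
  obtain ⟨hN1, hN2⟩ := hVN0 ρ hρsm hρcs
  obtain ⟨N, hN⟩ : ∃ N : ℂ → ℝ, N = fun z => (2 / Real.pi) * ∫ w, Real.log ‖w‖ * ρ (z - w) := ⟨_, rfl⟩
  rw [← hN] at hN1 hN2
  have hNb : ∀ z ∈ ball (0 : ℂ) 1, |N z| ≤ (2 / Real.pi) * ((Real.log 16 * T.card + Real.log 2 * ∑' k : ℕ, ((1 / 2 : ℝ) ^ k / 8) ^ β) * A) := by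
    intro z hz
    rw [hN]
    simp only
    rw [abs_mul, abs_of_nonneg (show (0 : ℝ) ≤ 2 / Real.pi by positivity)]
    exact mul_le_mul_of_nonneg_left (VN1_pot T hT hcov β hβ A hA ρ hρsm.continuous hρ0 hρs hb z hz) (by positivity)
  have hharm : InnerProductSpace.HarmonicOnNhd (fun z => v z - N z) (ball (0 : ℂ) (17 / 16)) := by
    intro z hz
    have hz5 : z ∈ ball (0 : ℂ) (5 / 4) := ball_subset_ball (by norm_num) hz
    refine ⟨((hvat z hz5).sub hN1.contDiffAt).of_le (WithTop.coe_le_coe.2 le_top), ?_⟩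
    filter_upwards [isOpen_ball.mem_nhds hz] with w hw
    have hw5 : w ∈ ball (0 : ℂ) (5 / 4) := ball_subset_ball (by norm_num) hw
    rw [InnerProductSpace.laplacian_eq_iteratedFDeriv_complexPlane]
    have h1 : iteratedFDeriv ℝ 2 (fun z => v z - N z) w = iteratedFDeriv ℝ 2 v w - iteratedFDeriv ℝ 2 N w :=
      iteratedFDeriv_sub_apply (i := 2) ((hvat w hw5).of_le (WithTop.coe_le_coe.2 le_top))
        (hN1.contDiffAt.of_le (WithTop.coe_le_coe.2 le_top))
    have h2 := hN2 w
    rw [hρ, χ.one_of_mem_closedBall (ball_subset_closedBall hw), one_mul] at h2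
    unfold lap at h2
    simp only [h1, sub_apply, Pi.zero_apply]
    linarith
  obtain ⟨F, hF, hE⟩ := InnerProductSpace.HarmonicOnNhd.exists_analyticOnNhd_ball_re_eq hharm
  refine ⟨F, fun z hz => ?_, fun z hz => ?_⟩
  · exact (hF z (ball_subset_ball (by norm_num) hz)).differentiableAt.differentiableWithinAt
  · have h1 : (F z).re = v z - N z := hE (ball_subset_ball (by norm_num) hz)
    rw [h1]
    have h2 : v z - (v z - N z) = N z := by ring
    rw [h2]
    refine le_trans (hNb z hz) ?_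
    nlinarith [hA]

end Pool.Agent.P2V
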